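import Pool.Agent.Helper7.HL.Stmts

/-!
# HL row PM [helper88]
-/

set_option autoImplicit false

namespace Pool.Agent.Helper88.HL

open Finset MvPolynomial
open Pool.Agent.Helper7.HL Pool.Agent.Helper32.HG

theorem dl_anti {N : ℕ} {i j : Fin N} (h : i < j) : dl N j < dl N i := by
  unfold dl
  have h1 : i.val < j.val := h
  have := j.2
  omega

theorem perm_eq_one_of_mono {N : ℕ} (σ : Equiv.Perm (Fin N)) (h : StrictMono σ) : σ = 1 := by
  have h1 : h.orderIsoOfSurjective _ σ.surjective = OrderIso.refl (Fin N) :=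
    Subsingleton.elim _ _
  ext i
  have h2 := congrArg (fun e : Fin N ≃o Fin N => (e i : ℕ)) h1
  exact h2

theorem rearr {N : ℕ} (ν : Fin N → ℕ) (hν : Antitone ν) (σ : Equiv.Perm (Fin N)) (hσ : σ ≠ 1) :
    ∑ i, dl N i * (ν (σ i) + dl N (σ i)) < ∑ i, dl N i * (ν i + dl N i) := by
  have hmono : Monovary (fun i => dl N i) (fun i => ν i + dl N i) := by
    intro i j hij
    by_contra hc
    push Not at hc
    have h1 : i < j := by
      by_contra hn
      push Not at hn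
      rcases hn.lt_or_eq with h | h
      · exact absurd hc (not_lt.mpr (dl_anti h).le)
      · rw [h] at hc; exact lt_irrefl _ hc
    have h2 := hν h1.le
    have h3 := dl_anti h1
    simp only at hij
    omega
  have := (Monovary.sum_mul_comp_perm_lt_sum_mul_iff (σ := σ) hmono).2
  apply this
  intro hm
  apply hσ
  apply perm_eq_one_of_mono
  intro i j hij
  by_contra hc
  push Not at hc
  have hne : σ j ≠ σ i := fun h => hij.ne' (σ.injective h)
  have h1 : σ j < σ i := lt_of_le_of_ne hc hne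
  have h2 := hν h1.le
  have h3 := dl_anti h1
  have h4 : (fun i => ν i + dl N i) (σ i) < (fun i => ν i + dl N i) (σ j) := by
    simp only; omega
  have h5 := hm h4
  have h6 := dl_anti hij
  simp only at h5
  omega

theorem st_PM : ST_PM := by
  intro N B hfin hne hperm
  obtain ⟨ν0, hν0, hmax⟩ := Set.exists_max_image B (fun ν => ∑ i, ν i ^ 2) hfin hne
  set τ : Equiv.Perm (Fin N) := Tuple.sort ν0 * Fin.revPerm with hτ
  have hanti : Antitone (ν0 ∘ τ) := by
    intro i j hij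
    have h1 : Fin.rev j ≤ Fin.rev i := Fin.rev_le_rev.mpr hij
    exact Tuple.monotone_sort ν0 h1
  have hB : ν0 ∘ τ ∈ B := hperm ν0 hν0 τ
  set ν := ν0 ∘ τ with hνdef
  have hmax' : ∀ γ ∈ B, ∑ i, γ i ^ 2 ≤ ∑ i, ν i ^ 2 := by
    intro γ hγ
    have : ∑ i, ν i ^ 2 = ∑ i, ν0 i ^ 2 := Equiv.sum_comp τ (fun i => ν0 i ^ 2)
    rw [this]
    exact hmax γ hγ
  have part1 : ∀ σ : Equiv.Perm (Fin N), σ ≠ 1 → (∀ i, dl N i ≤ ν (σ i) + dl N (σ i)) →
      (fun i => ν (σ i) + dl N (σ i) - dl N i) ∉ B := by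
    intro σ hσ hle hmem
    have h1 := hmax' _ hmem
    have h2 := rearr ν hanti σ hσ
    have h1' : ∑ i, ((ν (σ i) + dl N (σ i) - dl N i : ℕ) : ℤ) ^ 2 ≤ ∑ i, (ν i : ℤ) ^ 2 := by
      exact_mod_cast h1
    have h2' : ∑ i, (dl N i : ℤ) * (ν (σ i) + dl N (σ i)) <
        ∑ i, (dl N i : ℤ) * (ν i + dl N i) := by
      exact_mod_cast h2
    have h3 : ∑ i, ((ν (σ i) + dl N (σ i) - dl N i : ℕ) : ℤ) ^ 2 =
        ∑ i, ((ν (σ i) : ℤ) + dl N (σ i)) ^ 2 + ∑ i, (dl N i : ℤ) ^ 2 -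
          2 * ∑ i, (dl N i : ℤ) * (ν (σ i) + dl N (σ i)) := by
      rw [Finset.mul_sum, ← Finset.sum_add_distrib, ← Finset.sum_sub_distrib]
      apply Finset.sum_congr rfl
      intro i _
      rw [Nat.cast_sub (hle i)]
      push_cast; ring
    have h4 : ∑ i, (ν i : ℤ) ^ 2 =
        ∑ i, ((ν i : ℤ) + dl N i) ^ 2 + ∑ i, (dl N i : ℤ) ^ 2 -
          2 * ∑ i, (dl N i : ℤ) * (ν i + dl N i) := by
      rw [Finset.mul_sum, ← Finset.sum_add_distrib, ← Finset.sum_sub_distrib]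
      apply Finset.sum_congr rfl
      intro i _
      ring
    have h5 : ∑ i, ((ν (σ i) : ℤ) + dl N (σ i)) ^ 2 = ∑ i, ((ν i : ℤ) + dl N i) ^ 2 :=
      Equiv.sum_comp σ (fun i => ((ν i : ℤ) + dl N i) ^ 2)
    rw [h3, h4, h5] at h1'
    linarith
  refine ⟨ν, hB, hanti, fun σ hσ => ⟨part1 σ hσ, ?_⟩⟩
  intro hle hmem
  have hσ' : σ⁻¹ ≠ 1 := fun h => hσ (inv_eq_one.mp h)
  apply part1 σ⁻¹ hσ'
  · intro i
    have h1 : σ (σ⁻¹ i) = i := Equiv.apply_symm_apply σ i
    have := hle (σ⁻¹ i)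
    rwa [h1] at this
  · have := hperm _ hmem σ⁻¹
    convert this using 1
    funext i
    have h1 : σ (σ⁻¹ i) = i := Equiv.apply_symm_apply σ i
    simp only [Function.comp, h1]

end Pool.Agent.Helper88.HL
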