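import Pool.Agent.Helper7.HL.Stmts

/-!
# HL row UL [helper88]
-/

set_option autoImplicit false

namespace Pool.Agent.Helper88.HL

open Finset MvPolynomial
open Pool.Agent.Helper7.HL Pool.Agent.Helper32.HG

theorem dl_inj {k : ℕ} {i j : Fin k} (h : dl k i = dl k j) : i = j := by
  unfold dl at h
  apply Fin.ext
  have := i.2; have := j.2
  omega

theorem sum_sq_lt {k : ℕ} (σ : Equiv.Perm (Fin k)) (hσ : σ ≠ 1) :
    ∑ i, (dl k i : ℤ) * (dl k (σ i) : ℤ) < ∑ i, (dl k i : ℤ) * (dl k i : ℤ) := by
  have h1 : ∑ i, (dl k (σ i) : ℤ) * (dl k (σ i) : ℤ) = ∑ i, (dl k i : ℤ) * (dl k i : ℤ) :=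
    Equiv.sum_comp σ (fun i => (dl k i : ℤ) * (dl k i : ℤ))
  have h2 : 0 < ∑ i, ((dl k i : ℤ) - (dl k (σ i) : ℤ)) ^ 2 := by
    apply Finset.sum_pos'
    · intro i _; positivity
    · have : ∃ i, σ i ≠ i := by
        by_contra hc
        push Not at hc
        exact hσ (Equiv.ext hc)
      obtain ⟨i, hi⟩ := this
      refine ⟨i, Finset.mem_univ i, ?_⟩
      have : (dl k i : ℤ) - (dl k (σ i) : ℤ) ≠ 0 := by
        intro h
        apply hi
        have : dl k i = dl k (σ i) := by omega
        exact (dl_inj this).symm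
      positivity
  have h3 : ∑ i, ((dl k i : ℤ) - (dl k (σ i) : ℤ)) ^ 2 =
      ∑ i, (dl k i : ℤ) * (dl k i : ℤ) + ∑ i, (dl k (σ i) : ℤ) * (dl k (σ i) : ℤ) -
        2 * ∑ i, (dl k i : ℤ) * (dl k (σ i) : ℤ) := by
    rw [Finset.mul_sum, ← Finset.sum_add_distrib, ← Finset.sum_sub_distrib]
    apply Finset.sum_congr rfl
    intro i _; ring
  rw [h3, h1] at h2
  linarith

theorem st_UL : ST_UL := by
  intro k M _ F hneg hsum
  have key : ∀ n : ℕ, ∀ γ : Fin k → ℤ, (∀ i, 0 ≤ γ i) →
      ((k : ℤ) * ∑ i, γ i - ∑ i, (dl k i : ℤ) * γ i).toNat = n → F γ = 0 := by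
    intro n
    induction n using Nat.strong_induction_on with
    | _ n ih =>
      intro γ hγ hn
      have h0 := hsum (fun i => (γ i).toNat + dl k i)
      have h1 : ∀ σ : Equiv.Perm (Fin k), σ ≠ 1 →
          (Equiv.Perm.sign σ : ℤ) • F (fun i => (((γ i).toNat + dl k i : ℕ) : ℤ) - dl k (σ i)) =
            0 := by
        intro σ hσ
        have : F (fun i => (((γ i).toNat + dl k i : ℕ) : ℤ) - dl k (σ i)) = 0 := by
          by_cases hc : ∃ i, (((γ i).toNat + dl k i : ℕ) : ℤ) - dl k (σ i) < 0
          · obtain ⟨i, hi⟩ := hc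
            exact hneg _ i hi
          · push Not at hc
            have e : (fun i => (((γ i).toNat + dl k i : ℕ) : ℤ) - dl k (σ i)) =
                fun i => γ i + (dl k i : ℤ) - dl k (σ i) := by
              funext i
              have := hγ i
              push_cast
              rw [Int.toNat_of_nonneg this]
            rw [e] at *
            have hc' : ∀ i, 0 ≤ γ i + (dl k i : ℤ) - dl k (σ i) := by
              intro i
              have h := hc i
              have := hγ i
              push_cast at h
              rw [Int.toNat_of_nonneg this] at h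
              exact h
            have hlt := sum_sq_lt σ hσ
            have hs : ∑ i, (γ i + (dl k i : ℤ) - dl k (σ i)) = ∑ i, γ i := by
              rw [Finset.sum_sub_distrib, Finset.sum_add_distrib,
                Equiv.sum_comp σ (fun i => (dl k i : ℤ))]
              ring
            have hw : ∑ i, (dl k i : ℤ) * (γ i + (dl k i : ℤ) - dl k (σ i)) =
                ∑ i, (dl k i : ℤ) * γ i + ∑ i, (dl k i : ℤ) * (dl k i : ℤ) -
                  ∑ i, (dl k i : ℤ) * (dl k (σ i) : ℤ) := by
              rw [← Finset.sum_add_distrib, ← Finset.sum_sub_distrib]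
              apply Finset.sum_congr rfl
              intro i _; ring
            have hnn : 0 ≤ (k : ℤ) * ∑ i, (γ i + (dl k i : ℤ) - dl k (σ i)) -
                ∑ i, (dl k i : ℤ) * (γ i + (dl k i : ℤ) - dl k (σ i)) := by
              rw [Finset.mul_sum, ← Finset.sum_sub_distrib]
              apply Finset.sum_nonneg
              intro i _
              have h2 := hc' i
              have h3 : (dl k i : ℤ) ≤ k := by unfold dl; omega
              have : (k : ℤ) * (γ i + (dl k i : ℤ) - dl k (σ i)) -
                (dl k i : ℤ) * (γ i + (dl k i : ℤ) - dl k (σ i)) =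
                ((k : ℤ) - dl k i) * (γ i + (dl k i : ℤ) - dl k (σ i)) := by ring
              rw [this]
              exact mul_nonneg (by linarith) h2
            refine ih _ ?_ _ hc' rfl
            rw [← hn]
            rw [hs, hw] at hnn ⊢
            omega
        rw [this, smul_zero]
      rw [Finset.sum_eq_single 1 (fun σ _ hσ => h1 σ hσ)
        (fun h => absurd (Finset.mem_univ _) h)] at h0
      simp only [Equiv.Perm.sign_one, Units.val_one, one_smul, Equiv.Perm.coe_one, id] at h0
      have e : (fun i => (((γ i).toNat + dl k i : ℕ) : ℤ) - dl k i) = γ := by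
        funext i
        have := hγ i
        push_cast
        rw [Int.toNat_of_nonneg this]; ring
      rw [e] at h0
      exact h0
  intro γ
  by_cases hc : ∃ i, γ i < 0
  · obtain ⟨i, hi⟩ := hc
    exact hneg γ i hi
  · push Not at hc
    exact key _ γ hc rfl

end Pool.Agent.Helper88.HL
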